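import Pool.Agent.W734.TWB.Stms
import Pool.Agent.Helper734.IB.PolarF

/-!
# Project TWB, part KERN: the kernel of `(κ - Δ)⁻¹` on `ℝ³`
-/

set_option autoImplicit false

noncomputable section

namespace Pool.Agent.W805.TWB

open MeasureTheory Set Filter Metric Topology Pool.Agent.W734.TWB

/-- radial profile `e^{-μ s} / (4 π s)` -/
def ph (μ s : ℝ) : ℝ := Real.exp (-μ * s) / (4 * Real.pi * s)

/-- minus the derivative of the radial profile -/
def ph1 (μ s : ℝ) : ℝ := (1 + μ * s) * Real.exp (-μ * s) / (4 * Real.pi * s ^ 2)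

lemma hasDerivAt_ph (μ s : ℝ) (hs : 0 < s) : HasDerivAt (ph μ) (-ph1 μ s) s := by
  have hpi := Real.pi_pos
  have h1 : HasDerivAt (fun s : ℝ => Real.exp (-μ * s)) (Real.exp (-μ * s) * (-μ)) s := by
    have := ((hasDerivAt_id s).const_mul (-μ)).exp
    simpa using this
  have h2 : HasDerivAt (fun s : ℝ => 4 * Real.pi * s) (4 * Real.pi) s := by
    simpa using (hasDerivAt_id s).const_mul (4 * Real.pi)
  have h3 := h1.div h2 (by positivity)
  refine h3.congr_deriv ?_
  unfold ph1
  field_simp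
  ring

lemma ph_pos (μ s : ℝ) (hs : 0 < s) : 0 < ph μ s := by
  have := Real.pi_pos
  unfold ph
  positivity

lemma ph_nonneg (μ s : ℝ) (hs : 0 ≤ s) : 0 ≤ ph μ s := by
  have := Real.pi_pos
  unfold ph
  positivity

lemma ph1_nonneg (μ s : ℝ) (hμ : 0 < μ) (hs : 0 ≤ s) : 0 ≤ ph1 μ s := by
  have := Real.pi_pos
  unfold ph1
  positivity

lemma ph_anti (μ s t : ℝ) (hμ : 0 < μ) (hs : 0 < s) (hst : s ≤ t) : ph μ t ≤ ph μ s := by
  have := Real.pi_pos
  unfold ph
  apply div_le_div₀ (Real.exp_pos _).le _ (by positivity)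
  · exact mul_le_mul_of_nonneg_left hst (by positivity)
  · apply Real.exp_le_exp.2
    nlinarith

lemma q_anti (μ s t : ℝ) (hμ : 0 < μ) (hs : 0 ≤ s) (hst : s ≤ t) :
    (1 + μ * t) * Real.exp (-μ * t) ≤ (1 + μ * s) * Real.exp (-μ * s) := by
  have h1 := Real.add_one_le_exp (μ * (t - s))
  have h2 : Real.exp (-μ * s) = Real.exp (-μ * t) * Real.exp (μ * (t - s)) := by
    rw [← Real.exp_add]
    congr 1
    ring
  rw [h2]
  have h3 : (1 + μ * t) ≤ (1 + μ * s) * Real.exp (μ * (t - s)) := by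
    have h4 : 0 ≤ μ * s := by positivity
    have h5 : 0 ≤ μ * (t - s) := mul_nonneg hμ.le (by linarith)
    have h6 : (1 + μ * s) * (μ * (t - s) + 1) ≤ (1 + μ * s) * Real.exp (μ * (t - s)) :=
      mul_le_mul_of_nonneg_left h1 (by linarith)
    nlinarith [mul_nonneg h4 h5]
  have h7 := Real.exp_pos (-μ * t)
  calc (1 + μ * t) * Real.exp (-μ * t) ≤ ((1 + μ * s) * Real.exp (μ * (t - s))) * Real.exp (-μ * t) :=
        mul_le_mul_of_nonneg_right h3 h7.le
    _ = _ := by ring

lemma ph1_anti (μ s t : ℝ) (hμ : 0 < μ) (hs : 0 < s) (hst : s ≤ t) : ph1 μ t ≤ ph1 μ s := by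
  have := Real.pi_pos
  unfold ph1
  apply div_le_div₀ (by positivity) (q_anti μ s t hμ hs.le hst) (by positivity)
  exact mul_le_mul_of_nonneg_left (pow_le_pow_left₀ hs.le hst 2) (by positivity)

lemma measurable_ph (μ : ℝ) : Measurable (ph μ) := by
  unfold ph
  fun_prop

lemma measurable_ph1 (μ : ℝ) : Measurable (ph1 μ) := by
  unfold ph1
  fun_prop

/-- integrability of radial functions -/
lemma radial (g : ℝ → ℝ) (hg : Measurable g) (C b : ℝ) (hb : 0 < b)
    (h : ∀ y : ℝ, 0 < y → |y ^ 2 * g y| ≤ C * Real.exp (-b * y)) :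
    Integrable (fun z : E3 => g ‖z‖) := by
  rw [integrable_fun_norm_addHaar (volume : Measure E3)]
  have hfr : Module.finrank ℝ E3 - 1 = 2 := by simp [E3]
  rw [hfr]
  have h1 : IntegrableOn (fun y : ℝ => C * Real.exp (-b * y)) (Ioi 0) :=
    (exp_neg_integrableOn_Ioi 0 hb).const_mul C
  refine Integrable.mono' h1 ?_ ?_
  · exact ((measurable_id.pow_const 2).mul hg).aestronglyMeasurable
  · refine (ae_restrict_iff' measurableSet_Ioi).2 (ae_of_all _ fun y hy => ?_)
    rw [smul_eq_mul, Real.norm_eq_abs]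
    exact h y hy

lemma lin_exp (b y : ℝ) (hy : 0 ≤ y) (hb : 0 < b) :
    (1 + b * y) * Real.exp (-b * y) ≤ 2 * Real.exp (-(b / 2) * y) := by
  have h1 := Real.add_one_le_exp (b / 2 * y)
  have h2 : Real.exp (-(b / 2) * y) = Real.exp (-b * y) * Real.exp (b / 2 * y) := by
    rw [← Real.exp_add]
    congr 1
    ring
  rw [h2]
  have h3 := Real.exp_pos (-b * y)
  have h4 : 1 + b * y ≤ 2 * Real.exp (b / 2 * y) := by nlinarith
  nlinarith [mul_le_mul_of_nonneg_left h4 h3.le]

lemma int_ph (μ : ℝ) (hμ : 0 < μ) : Integrable (fun z : E3 => ph μ ‖z‖) := by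
  have hpi := Real.pi_pos
  refine radial (ph μ) (measurable_ph μ) (2 / (4 * Real.pi * μ)) (μ / 2) (by positivity) ?_
  intro y hy
  have h1 : y ^ 2 * ph μ y = y * Real.exp (-μ * y) / (4 * Real.pi) := by
    unfold ph
    field_simp
  rw [h1, abs_of_nonneg (by positivity)]
  have h2 := lin_exp μ y hy.le hμ
  have h3 := Real.exp_pos (-μ * y)
  have h4 : μ * y * Real.exp (-μ * y) ≤ 2 * Real.exp (-(μ / 2) * y) := by nlinarith
  rw [div_le_iff₀ (by positivity)]
  have h5 : 2 / (4 * Real.pi * μ) * Real.exp (-(μ / 2) * y) * (4 * Real.pi) =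
      2 * Real.exp (-(μ / 2) * y) / μ := by
    field_simp
  rw [h5, le_div_iff₀ hμ]
  linarith

lemma int_ph_sq (μ : ℝ) (hμ : 0 < μ) : Integrable (fun z : E3 => ph μ ‖z‖ ^ 2) := by
  have hpi := Real.pi_pos
  refine radial (fun s => ph μ s ^ 2) ((measurable_ph μ).pow_const 2) (1 / (4 * Real.pi) ^ 2)
    (2 * μ) (by positivity) ?_
  intro y hy
  have h1 : y ^ 2 * ph μ y ^ 2 = 1 / (4 * Real.pi) ^ 2 * Real.exp (-(2 * μ) * y) := by
    have h2 : Real.exp (-(2 * μ) * y) = Real.exp (-μ * y) ^ 2 := by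
      rw [← Real.exp_nat_mul]
      congr 1
      push_cast
      ring
    rw [h2]
    unfold ph
    field_simp
  rw [h1, abs_of_nonneg (by positivity)]

lemma int_ph1 (μ : ℝ) (hμ : 0 < μ) : Integrable (fun z : E3 => ph1 μ ‖z‖) := by
  have hpi := Real.pi_pos
  refine radial (ph1 μ) (measurable_ph1 μ) (2 / (4 * Real.pi)) (μ / 2) (by positivity) ?_
  intro y hy
  have h1 : y ^ 2 * ph1 μ y = (1 + μ * y) * Real.exp (-μ * y) / (4 * Real.pi) := by
    unfold ph1
    field_simp
  rw [h1, abs_of_nonneg (by positivity), div_mul_eq_mul_div]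
  exact div_le_div_of_nonneg_right (lin_exp μ y hy.le hμ) (by positivity)

/-- the kernel -/
def KK (μ : ℝ) (z : E3) : ℝ := ph μ ‖z‖

/-- its gradient -/
def DD (μ : ℝ) (k : Fin 3) (z : E3) : ℝ := -(ph1 μ ‖z‖ * (z k / ‖z‖))

lemma coord_le (z : E3) (k : Fin 3) : |z k| ≤ ‖z‖ := by
  have := PiLp.norm_apply_le z k
  rwa [Real.norm_eq_abs] at this

lemma DD_le (μ : ℝ) (hμ : 0 < μ) (k : Fin 3) (z : E3) : |DD μ k z| ≤ ph1 μ ‖z‖ := by
  unfold DD
  rw [abs_neg, abs_mul, abs_of_nonneg (ph1_nonneg μ _ hμ (norm_nonneg z)), abs_div,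
    abs_of_nonneg (norm_nonneg z)]
  have h1 : |z k| / ‖z‖ ≤ 1 := div_le_one_of_le₀ (coord_le z k) (norm_nonneg z)
  calc _ ≤ ph1 μ ‖z‖ * 1 := mul_le_mul_of_nonneg_left h1 (ph1_nonneg μ _ hμ (norm_nonneg z))
    _ = _ := mul_one _

lemma measurable_KK (μ : ℝ) : Measurable (KK μ) := (measurable_ph μ).comp measurable_norm

lemma measurable_coord (k : Fin 3) : Measurable (fun z : E3 => z k) := by
  have : Continuous (fun z : E3 => z k) := by fun_prop
  exact this.measurable

lemma measurable_DD (μ : ℝ) (k : Fin 3) : Measurable (DD μ k) :=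
  (((measurable_ph1 μ).comp measurable_norm).mul ((measurable_coord k).div measurable_norm)).neg

lemma int_DD (μ : ℝ) (hμ : 0 < μ) (k : Fin 3) : Integrable (DD μ k) := by
  refine Integrable.mono' (int_ph1 μ hμ) (measurable_DD μ k).aestronglyMeasurable
    (ae_of_all _ fun z => ?_)
  rw [Real.norm_eq_abs]
  exact DD_le μ hμ k z

/-! ### the weak gradient -/

/-- regularised norm -/
def sg (e : ℝ) (z : E3) : ℝ := Real.sqrt (‖z‖ ^ 2 + e)

lemma sg_pos (e : ℝ) (he : 0 < e) (z : E3) : 0 < sg e z := by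
  unfold sg
  positivity

lemma le_sg (e : ℝ) (he : 0 ≤ e) (z : E3) : ‖z‖ ≤ sg e z := by
  unfold sg
  apply Real.le_sqrt_of_sq_le
  linarith

lemma continuous_sg (e : ℝ) : Continuous (sg e) := by
  unfold sg
  fun_prop

lemma hasFDerivAt_sg (e : ℝ) (he : 0 < e) (z : E3) :
    HasFDerivAt (sg e) ((1 / (2 * sg e z)) • ((2 : ℝ) • (innerSL ℝ z))) z := by
  have h1 : HasFDerivAt (fun x : E3 => ‖x‖ ^ 2 + e) ((2 : ℝ) • (innerSL ℝ z)) z := by
    have := (hasStrictFDerivAt_norm_sq z).hasFDerivAt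
    have h2 := this.add_const e
    refine h2.congr_fderiv ?_
    ext v
    simp [two_smul]
  have h2 := h1.sqrt (by positivity)
  exact h2

lemma hasFDerivAt_phsg (μ e : ℝ) (he : 0 < e) (z : E3) :
    HasFDerivAt (fun z => ph μ (sg e z))
      ((-ph1 μ (sg e z)) • ((1 / (2 * sg e z)) • ((2 : ℝ) • (innerSL ℝ z)))) z :=
  (hasDerivAt_ph μ (sg e z) (sg_pos e he z)).comp_hasFDerivAt z (hasFDerivAt_sg e he z)

lemma fderiv_phsg (μ e : ℝ) (he : 0 < e) (z : E3) (k : Fin 3) :
    fderiv ℝ (fun z => ph μ (sg e z)) z (EuclideanSpace.single k (1 : ℝ)) =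
      -(ph1 μ (sg e z) * (z k / sg e z)) := by
  rw [(hasFDerivAt_phsg μ e he z).fderiv]
  have := (sg_pos e he z).ne'
  simp only [_root_.smul_apply, innerSL_apply_apply, smul_eq_mul,
    EuclideanSpace.inner_single_right]
  simp
  field_simp
  exact Or.inl trivial

lemma cont_phsg (μ e : ℝ) (he : 0 < e) : Continuous (fun z : E3 => ph μ (sg e z)) := by
  have hpi := Real.pi_pos
  unfold ph
  have h1 := continuous_sg e
  refine Continuous.div (by fun_prop) (by fun_prop) fun z => ?_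
  have := sg_pos e he z
  positivity

lemma cont_ph1sg (μ e : ℝ) (he : 0 < e) (k : Fin 3) :
    Continuous (fun z : E3 => -(ph1 μ (sg e z) * (z k / sg e z))) := by
  have hpi := Real.pi_pos
  have h1 := continuous_sg e
  have h0 : Continuous (fun z : E3 => z k) := by fun_prop
  have h2 : Continuous (fun z : E3 => ph1 μ (sg e z)) := by
    unfold ph1
    refine Continuous.div (by fun_prop) (by fun_prop) fun z => ?_
    have := sg_pos e he z
    positivity
  exact (h2.mul (h0.div h1 fun z => (sg_pos e he z).ne')).neg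

lemma tendsto_sg (z : E3) (u : ℕ → ℝ) (hu : Tendsto u atTop (𝓝 0)) :
    Tendsto (fun n => sg (u n) z) atTop (𝓝 ‖z‖) := by
  have h1 : Tendsto (fun n => ‖z‖ ^ 2 + u n) atTop (𝓝 (‖z‖ ^ 2 + 0)) := hu.const_add _
  have h2 := (Real.continuous_sqrt.tendsto _).comp h1
  rw [add_zero, Real.sqrt_sq (norm_nonneg z)] at h2
  exact h2

lemma cont_ph_at (μ s : ℝ) (hs : 0 < s) : ContinuousAt (ph μ) s :=
  (hasDerivAt_ph μ s hs).continuousAt

lemma cont_ph1_at (μ s : ℝ) (hs : 0 < s) : ContinuousAt (ph1 μ) s := by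
  have hpi := Real.pi_pos
  unfold ph1
  refine ContinuousAt.div (by fun_prop) (by fun_prop) ?_
  positivity

lemma ae_ne_zero : ∀ᵐ z : E3, z ≠ 0 := by
  have : (volume : Measure E3) {(0 : E3)} = 0 := measure_singleton _
  rw [ae_iff]
  simpa using this

lemma weak_grad (μ : ℝ) (hμ : 0 < μ) (η : E3 → ℝ) (hη : ContDiff ℝ 1 η)
    (hc : HasCompactSupport η) (k : Fin 3) :
    ∫ z, KK μ z * fderiv ℝ η z (EuclideanSpace.single k (1 : ℝ)) = - ∫ z, DD μ k z * η z := by
  set v : E3 := EuclideanSpace.single k (1 : ℝ) with hv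
  have hd : Continuous (fun z => fderiv ℝ η z v) :=
    (hη.continuous_fderiv (by norm_num)).clm_apply continuous_const
  have hdc : HasCompactSupport (fun z => fderiv ℝ η z v) := hc.fderiv_apply (𝕜 := ℝ) v
  obtain ⟨M1, hM1⟩ := hd.bounded_above_of_compact_support hdc
  obtain ⟨M0, hM0⟩ := hη.continuous.bounded_above_of_compact_support hc
  -- regularised identity
  have hreg : ∀ e : ℝ, 0 < e → ∫ z, ph μ (sg e z) * fderiv ℝ η z v =
      - ∫ z, -(ph1 μ (sg e z) * (z k / sg e z)) * η z := by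
    intro e he
    have h1 := integral_mul_fderiv_eq_neg_fderiv_mul_of_integrable (𝕜 := ℝ)
      (μ := (volume : Measure E3)) (f := fun z : E3 => ph μ (sg e z)) (g := η) (v := v) ?_ ?_ ?_
      (fun x _ => (hasFDerivAt_phsg μ e he x).differentiableAt)
      (fun x _ => (hη.differentiable (by norm_num)) x)
    · rw [h1]
      congr 1
      refine integral_congr_ae (ae_of_all _ fun z => ?_)
      simp only
      rw [hv, fderiv_phsg μ e he z k]
    · have h2 : (fun x => fderiv ℝ (fun z : E3 => ph μ (sg e z)) x v * η x) =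
          fun x => -(ph1 μ (sg e x) * (x k / sg e x)) * η x := by
        funext x
        rw [hv, fderiv_phsg μ e he x k]
      rw [h2]
      exact ((cont_ph1sg μ e he k).mul hη.continuous).integrable_of_hasCompactSupport
        hc.mul_left
    · exact ((cont_phsg μ e he).mul hd).integrable_of_hasCompactSupport hdc.mul_left
    · exact ((cont_phsg μ e he).mul hη.continuous).integrable_of_hasCompactSupport hc.mul_left
  -- the limit
  let u : ℕ → ℝ := fun n => 1 / ((n : ℝ) + 1)
  have hu0 : ∀ n, 0 < u n := fun n => by positivity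
  have hu : Tendsto u atTop (𝓝 0) := tendsto_one_div_add_atTop_nhds_zero_nat (𝕜 := ℝ)
  have hL : Tendsto (fun n => ∫ z, ph μ (sg (u n) z) * fderiv ℝ η z v) atTop
      (𝓝 (∫ z, KK μ z * fderiv ℝ η z v)) := by
    refine tendsto_integral_of_dominated_convergence (fun z => ph μ ‖z‖ * M1) ?_ ?_ ?_ ?_
    · intro n
      exact ((cont_phsg μ (u n) (hu0 n)).mul hd).aestronglyMeasurable
    · exact (int_ph μ hμ).mul_const M1
    · intro n
      filter_upwards [ae_ne_zero] with z hz
      have hz0 : 0 < ‖z‖ := norm_pos_iff.2 hz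
      rw [norm_mul, Real.norm_of_nonneg (ph_nonneg μ _ (sg_pos _ (hu0 n) z).le)]
      exact mul_le_mul (ph_anti μ _ _ hμ hz0 (le_sg _ (hu0 n).le z)) (hM1 z) (norm_nonneg _)
        (ph_nonneg μ _ hz0.le)
    · filter_upwards [ae_ne_zero] with z hz
      have hz0 : 0 < ‖z‖ := norm_pos_iff.2 hz
      exact (((cont_ph_at μ ‖z‖ hz0).tendsto).comp (tendsto_sg z u hu)).mul_const _
  have hR : Tendsto (fun n => - ∫ z, -(ph1 μ (sg (u n) z) * (z k / sg (u n) z)) * η z) atTop
      (𝓝 (- ∫ z, DD μ k z * η z)) := by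
    refine (tendsto_integral_of_dominated_convergence (fun z => ph1 μ ‖z‖ * M0) ?_ ?_ ?_ ?_).neg
    · intro n
      exact ((cont_ph1sg μ (u n) (hu0 n) k).mul hη.continuous).aestronglyMeasurable
    · exact (int_ph1 μ hμ).mul_const M0
    · intro n
      filter_upwards [ae_ne_zero] with z hz
      have hz0 : 0 < ‖z‖ := norm_pos_iff.2 hz
      have hs := sg_pos (u n) (hu0 n) z
      have h1 : |ph1 μ (sg (u n) z) * (z k / sg (u n) z)| ≤ ph1 μ ‖z‖ := by
        rw [abs_mul, abs_of_nonneg (ph1_nonneg μ _ hμ hs.le), abs_div, abs_of_pos hs]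
        have h2 : |z k| / sg (u n) z ≤ 1 :=
          div_le_one_of_le₀ ((coord_le z k).trans (le_sg _ (hu0 n).le z)) hs.le
        calc _ ≤ ph1 μ (sg (u n) z) * 1 := mul_le_mul_of_nonneg_left h2 (ph1_nonneg μ _ hμ hs.le)
          _ ≤ _ := by rw [mul_one]; exact ph1_anti μ _ _ hμ hz0 (le_sg _ (hu0 n).le z)
      rw [norm_mul, norm_neg, Real.norm_eq_abs]
      exact mul_le_mul h1 (hM0 z) (norm_nonneg _) (ph1_nonneg μ _ hμ hz0.le)
    · filter_upwards [ae_ne_zero] with z hz
      have hz0 : 0 < ‖z‖ := norm_pos_iff.2 hz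
      have h1 := tendsto_sg z u hu
      have h2 := ((cont_ph1_at μ ‖z‖ hz0).tendsto).comp h1
      have h3 : Tendsto (fun n => z k / sg (u n) z) atTop (𝓝 (z k / ‖z‖)) :=
        tendsto_const_nhds.div h1 hz0.ne'
      exact ((h2.mul h3).neg).mul_const _
  have hLR : (fun n => ∫ z, ph μ (sg (u n) z) * fderiv ℝ η z v) =
      fun n => - ∫ z, -(ph1 μ (sg (u n) z) * (z k / sg (u n) z)) * η z := by
    funext n
    exact hreg (u n) (hu0 n)
  rw [hLR] at hL
  exact tendsto_nhds_unique hL hR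

/-! ### the fundamental solution -/

lemma sum_coord (L : E3 →L[ℝ] ℝ) (w : E3) :
    ∑ k : Fin 3, w k * L (EuclideanSpace.single k (1 : ℝ)) = L w := by
  have h : w = ∑ k : Fin 3, w k • EuclideanSpace.single k (1 : ℝ) := by
    ext i
    simp [Finset.sum_apply, Pi.single_apply]
  conv_rhs => rw [h, map_sum]
  refine Finset.sum_congr rfl fun k _ => ?_
  rw [map_smul, smul_eq_mul]

lemma fund_rad (μ : ℝ) (η : E3 → ℝ) (hη : ContDiff ℝ 1 η)
    (hc : HasCompactSupport η) (w : E3) (hw : ‖w‖ = 1) :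
    ∫ r in Ioi (0 : ℝ), (μ ^ 2 * r * Real.exp (-μ * r) / (4 * Real.pi) * η (r • w) -
      (1 + μ * r) * Real.exp (-μ * r) / (4 * Real.pi) * fderiv ℝ η (r • w) w) =
      η 0 / (4 * Real.pi) := by
  have hpi := Real.pi_pos
  have hd : Continuous (fun z => fderiv ℝ η z w) :=
    (hη.continuous_fderiv (by norm_num)).clm_apply continuous_const
  have hdc : HasCompactSupport (fun z => fderiv ℝ η z w) := hc.fderiv_apply (𝕜 := ℝ) w
  obtain ⟨R, hR⟩ := hc.isCompact.isBounded.subset_closedBall (0 : E3)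
  have hz1 : ∀ r : ℝ, r ∉ Icc (-R) R → η (r • w) = 0 := by
    intro r hr
    apply image_eq_zero_of_notMem_tsupport
    intro hcon
    have h1 := hR hcon
    rw [mem_closedBall_zero_iff, norm_smul, hw, mul_one, Real.norm_eq_abs, abs_le] at h1
    exact hr h1
  have hz2 : ∀ r : ℝ, r ∉ Icc (-R) R → fderiv ℝ η (r • w) w = 0 := by
    intro r hr
    have h0 : r • w ∉ tsupport η := by
      intro hcon
      have h1 := hR hcon
      rw [mem_closedBall_zero_iff, norm_smul, hw, mul_one, Real.norm_eq_abs, abs_le] at h1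
      exact hr h1
    have h1 : fderiv ℝ η (r • w) = 0 := by
      by_contra hcon
      exact h0 (support_fderiv_subset ℝ hcon)
    rw [h1]
    simp
  have hq : ∀ r : ℝ, HasDerivAt (fun r : ℝ => (1 + μ * r) * Real.exp (-μ * r))
      (-(μ ^ 2 * r * Real.exp (-μ * r))) r := by
    intro r
    have h1 : HasDerivAt (fun s : ℝ => Real.exp (-μ * s)) (Real.exp (-μ * r) * (-μ)) r := by
      have := ((hasDerivAt_id r).const_mul (-μ)).exp
      simpa using this
    have h2 : HasDerivAt (fun s : ℝ => 1 + μ * s) μ r := by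
      simpa using ((hasDerivAt_id r).const_mul μ).const_add 1
    refine (h2.mul h1).congr_deriv ?_
    ring
  have he : ∀ r : ℝ, HasDerivAt (fun r : ℝ => η (r • w)) (fderiv ℝ η (r • w) w) r := by
    intro r
    have h1 : HasDerivAt (fun r : ℝ => r • w) w r := by
      simpa using (hasDerivAt_id r).smul_const w
    exact ((hη.differentiable (by norm_num)) (r • w)).hasFDerivAt.comp_hasDerivAt r h1
  have hG : ∀ r : ℝ, HasDerivAt (fun r : ℝ => -((1 + μ * r) * Real.exp (-μ * r)) / (4 * Real.pi) *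
      η (r • w)) (μ ^ 2 * r * Real.exp (-μ * r) / (4 * Real.pi) * η (r • w) -
      (1 + μ * r) * Real.exp (-μ * r) / (4 * Real.pi) * fderiv ℝ η (r • w) w) r := by
    intro r
    refine ((((hq r).neg).div_const (4 * Real.pi)).mul (he r)).congr_deriv ?_
    simp only [Pi.neg_apply]
    ring
  have hcts : Continuous (fun r : ℝ => μ ^ 2 * r * Real.exp (-μ * r) / (4 * Real.pi) * η (r • w) -
      (1 + μ * r) * Real.exp (-μ * r) / (4 * Real.pi) * fderiv ℝ η (r • w) w) := by
    have h1 : Continuous (fun r : ℝ => η (r • w)) := hη.continuous.comp (by fun_prop)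
    have h2 : Continuous (fun r : ℝ => fderiv ℝ η (r • w) w) := hd.comp (by fun_prop)
    fun_prop
  have hcs : HasCompactSupport (fun r : ℝ => μ ^ 2 * r * Real.exp (-μ * r) / (4 * Real.pi) *
      η (r • w) - (1 + μ * r) * Real.exp (-μ * r) / (4 * Real.pi) * fderiv ℝ η (r • w) w) := by
    refine HasCompactSupport.intro (isCompact_Icc (a := -R) (b := R)) fun r hr => ?_
    rw [hz1 r hr, hz2 r hr]
    ring
  rw [integral_Ioi_of_hasDerivAt_of_tendsto' (m := 0) (fun r _ => hG r)
    (hcts.integrable_of_hasCompactSupport hcs).integrableOn]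
  · simp
    ring
  · refine Tendsto.congr' ?_ tendsto_const_nhds
    filter_upwards [eventually_gt_atTop R] with r hr
    rw [hz1 r (fun h => by linarith [h.2]), mul_zero]

lemma fund_sol (μ : ℝ) (hμ : 0 < μ) (η : E3 → ℝ) (hη : ContDiff ℝ 1 η)
    (hc : HasCompactSupport η) :
    ∫ z, ((∑ k : Fin 3, DD μ k z * fderiv ℝ η z (EuclideanSpace.single k (1 : ℝ))) +
      μ ^ 2 * KK μ z * η z) = η 0 := by
  have hpi := Real.pi_pos
  have hint : Integrable (fun z => (∑ k : Fin 3, DD μ k z *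
      fderiv ℝ η z (EuclideanSpace.single k (1 : ℝ))) + μ ^ 2 * KK μ z * η z) := by
    refine Integrable.add (integrable_finset_sum _ fun k _ => ?_) ?_
    · have hd : Continuous (fun z => fderiv ℝ η z (EuclideanSpace.single k (1 : ℝ))) :=
        (hη.continuous_fderiv (by norm_num)).clm_apply continuous_const
      have hdc : HasCompactSupport (fun z => fderiv ℝ η z (EuclideanSpace.single k (1 : ℝ))) :=
        hc.fderiv_apply (𝕜 := ℝ) _
      obtain ⟨M1, hM1⟩ := hd.bounded_above_of_compact_support hdc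
      exact (int_DD μ hμ k).mul_bdd (c := M1) hd.aestronglyMeasurable (ae_of_all _ hM1)
    · obtain ⟨M0, hM0⟩ := hη.continuous.bounded_above_of_compact_support hc
      exact ((int_ph μ hμ).const_mul (μ ^ 2)).mul_bdd (c := M0) hη.continuous.aestronglyMeasurable
        (ae_of_all _ hM0)
  rw [Pool.Agent.Helper734.IB.polarF _ hint]
  have hfr : Module.finrank ℝ E3 - 1 = 2 := by simp [E3]
  have hin : ∀ v : sphere (0 : E3) 1, ∫ r in Ioi (0 : ℝ), r ^ (Module.finrank ℝ E3 - 1) *
      ((∑ k : Fin 3, DD μ k (r • (v : E3)) *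
        fderiv ℝ η (r • (v : E3)) (EuclideanSpace.single k (1 : ℝ))) +
        μ ^ 2 * KK μ (r • (v : E3)) * η (r • (v : E3))) = η 0 / (4 * Real.pi) := by
    intro v
    have hv : ‖(v : E3)‖ = 1 := by simpa using v.2
    rw [← fund_rad μ η hη hc v hv, hfr]
    refine setIntegral_congr_fun measurableSet_Ioi fun r hr => ?_
    have hr0 : (0 : ℝ) < r := hr
    have hn : ‖r • (v : E3)‖ = r := by rw [norm_smul, hv, mul_one, Real.norm_of_nonneg hr0.le]
    have h1 : ∑ k : Fin 3, DD μ k (r • (v : E3)) *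
        fderiv ℝ η (r • (v : E3)) (EuclideanSpace.single k (1 : ℝ)) =
        -(ph1 μ r) * fderiv ℝ η (r • (v : E3)) v := by
      rw [← sum_coord (fderiv ℝ η (r • (v : E3))) v, Finset.mul_sum]
      refine Finset.sum_congr rfl fun k _ => ?_
      unfold DD
      rw [hn]
      have h2 : (r • (v : E3)) k = r * (v : E3) k := by simp
      rw [h2]
      field_simp
    rw [h1]
    unfold KK
    rw [hn]
    unfold ph ph1
    field_simp
    ring
  simp only [hin]
  rw [integral_const, Measure.toSphere_real_apply_univ]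
  have h3 : Module.finrank ℝ E3 = 3 := by simp [E3]
  have h4 : (volume : Measure E3).real (ball 0 1) = Real.pi * 4 / 3 := by
    rw [Measure.real, EuclideanSpace.volume_ball_fin_three, ENNReal.ofReal_one, one_pow, one_mul,
      ENNReal.toReal_ofReal (by positivity)]
  rw [h3, h4, smul_eq_mul]
  push_cast
  field_simp

theorem kern : S_KERN := by
  intro κ hκ
  have hpi := Real.pi_pos
  have hμ : 0 < Real.sqrt κ := Real.sqrt_pos.2 hκ
  have hμ2 : Real.sqrt κ ^ 2 = κ := Real.sq_sqrt hκ.le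
  refine ⟨KK (Real.sqrt κ), DD (Real.sqrt κ), ?_⟩
  refine
    { mK := measurable_KK _
      mD := measurable_DD _
      nonneg := fun z => ph_nonneg _ _ (norm_nonneg z)
      pos := fun z hz => ph_pos _ _ (norm_pos_iff.2 hz)
      intK := int_ph _ hμ
      sqK := int_ph_sq _ hμ
      intD := int_DD _ hμ
      even := fun z => ?_
      odd := fun k z => ?_
      grad := fun η hη hc k => weak_grad _ hμ η hη hc k
      fund := fun η hη hc => ?_ }
  · unfold KK
    rw [norm_neg]
  · unfold DD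
    rw [norm_neg]
    simp
    ring
  · have := fund_sol (Real.sqrt κ) hμ η hη hc
    rw [hμ2] at this
    exact this

end Pool.Agent.W805.TWB
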